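import Pool.Agent.W422.GC.Stms

set_option autoImplicit false
set_option linter.unusedSectionVars false

/-! # TRI: a regular triangulation decomposes the volume -/

namespace Pool.Agent.W462.GC

open MeasureTheory Pool.Agent.W422.GC

section

variable {T I : Type} [Fintype T] [DecidableEq T] [Fintype I] [DecidableEq I]

/-- the representations of `z` supported on `J` -/
def Rp (p : T → (I → ℝ)) (J : Finset T) (z : I → ℝ) (lam : T → ℝ) : Prop :=
  (∀ l, 0 ≤ lam l) ∧ (∀ l ∉ J, lam l = 0) ∧ ∑ l, lam l = 1 ∧ ∑ l, lam l • p l = z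

omit [DecidableEq I] in
theorem mem_hull (p : T → (I → ℝ)) (J : Finset T) (z : I → ℝ) :
    z ∈ convexHull ℝ (p '' (J : Set T)) ↔ ∃ lam, Rp p J z lam := by
  constructor
  · intro hz
    have hsub : convexHull ℝ (p '' (J : Set T)) ⊆ {z | ∃ lam, Rp p J z lam} := by
      refine convexHull_min ?_ ?_
      · rintro _ ⟨j, hj, rfl⟩
        refine ⟨Pi.single j 1, fun l => ?_, fun l hl => ?_, ?_, ?_⟩
        · rw [Pi.single_apply]
          split_ifs <;> norm_num
        · rw [Pi.single_apply, if_neg]
          rintro rfl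
          exact hl (Finset.mem_coe.1 hj)
        · rw [Finset.sum_eq_single j]
          · simp
          · intro b _ hb
            simp [hb]
          · intro h
            exact absurd (Finset.mem_univ j) h
        · rw [Finset.sum_eq_single j]
          · simp
          · intro b _ hb
            simp [hb]
          · intro h
            exact absurd (Finset.mem_univ j) h
      · rintro x ⟨lx, hx1, hx2, hx3, hx4⟩ y ⟨ly, hy1, hy2, hy3, hy4⟩ a b ha hb hab
        refine ⟨fun l => a * lx l + b * ly l, fun l => ?_, fun l hl => ?_, ?_, ?_⟩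
        · exact add_nonneg (mul_nonneg ha (hx1 l)) (mul_nonneg hb (hy1 l))
        · simp only [hx2 l hl, hy2 l hl, mul_zero, add_zero]
        · rw [Finset.sum_add_distrib, ← Finset.mul_sum, ← Finset.mul_sum, hx3, hy3, mul_one,
            mul_one, hab]
        · rw [← hx4, ← hy4, Finset.smul_sum, Finset.smul_sum, ← Finset.sum_add_distrib]
          refine Finset.sum_congr rfl fun l _ => ?_
          rw [add_smul, smul_smul, smul_smul]
    exact hsub hz
  · rintro ⟨lam, h1, h2, h3, h4⟩
    rw [← h4]
    have e1 : ∑ l, lam l • p l = ∑ l ∈ J, lam l • p l := by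
      symm
      refine Finset.sum_subset (Finset.subset_univ _) fun l _ hl => ?_
      rw [h2 l hl, zero_smul]
    have e2 : ∑ l ∈ J, lam l = 1 := by
      rw [← h3]
      exact Finset.sum_subset (Finset.subset_univ _) fun l _ hl => h2 l hl
    rw [e1]
    refine (convex_convexHull ℝ _).sum_mem (fun l _ => h1 l) e2 fun l hl => ?_
    exact subset_convexHull ℝ _ ⟨l, Finset.mem_coe.2 hl, rfl⟩

omit [DecidableEq I] in
theorem sum_sub (J : Finset T) (c : T → ℝ) (hc : ∀ l ∉ J, c l = 0) (p : T → (I → ℝ)) :
    ∑ l, c l • p l = ∑ j : J, c j • p j := by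
  rw [Finset.sum_coe_sort J (fun l => c l • p l)]
  symm
  refine Finset.sum_subset (Finset.subset_univ _) fun l _ hl => ?_
  rw [hc l hl, zero_smul]

theorem sum_sub' (J : Finset T) (c : T → ℝ) (hc : ∀ l ∉ J, c l = 0) :
    ∑ l, c l = ∑ j : J, c j := by
  rw [Finset.sum_coe_sort J (fun l => c l)]
  symm
  exact Finset.sum_subset (Finset.subset_univ _) fun l _ hl => hc l hl

omit [DecidableEq I] in
/-- affine independence, in terms of functions on `T` -/
theorem ai_iff (p : T → (I → ℝ)) (J : Finset T) :
    AffineIndependent ℝ (fun j : J => p j) ↔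
      ∀ g : T → ℝ, (∀ l ∉ J, g l = 0) → ∑ l, g l = 0 → ∑ l, g l • p l = 0 → ∀ l, g l = 0 := by
  rw [affineIndependent_iff]
  constructor
  · intro h g h1 h2 h3 l
    by_cases hl : l ∈ J
    · have := h Finset.univ (fun j : J => g j) (by rw [← sum_sub' J g h1]; exact h2)
        (by rw [← sum_sub J g h1 p]; exact h3) ⟨l, hl⟩ (Finset.mem_univ _)
      exact this
    · exact h1 l hl
  · intro h s w h1 h2 e he
    set g : T → ℝ := fun l => if hl : l ∈ J then (if (⟨l, hl⟩ : J) ∈ s then w ⟨l, hl⟩ else 0) else 0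
      with hg
    have hg0 : ∀ l ∉ J, g l = 0 := fun l hl => by simp only [hg, dif_neg hl]
    have hg1 : ∀ j : J, g j = if j ∈ s then w j else 0 := by
      intro j
      simp only [hg, dif_pos j.2]
    have h3 : ∑ l, g l = 0 := by
      rw [sum_sub' J g hg0, ← h1]
      simp only [hg1]
      rw [Finset.sum_ite_mem, Finset.univ_inter]
    have h4 : ∑ l, g l • p l = 0 := by
      rw [sum_sub J g hg0 p, ← h2]
      simp only [hg1, ite_smul, zero_smul]
      rw [Finset.sum_ite_mem, Finset.univ_inter]
    have h5 := h g hg0 h3 h4 e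
    rw [hg1, if_pos he] at h5
    exact h5

omit [DecidableEq I] in
/-- barycentric coordinates with respect to a cell -/
theorem bary (p : T → (I → ℝ)) (J : Finset T) (hc : J.card = Fintype.card I + 1)
    (ha : AffineIndependent ℝ (fun j : J => p j)) (z : I → ℝ) :
    ∃ c : T → ℝ, (∀ l ∉ J, c l = 0) ∧ ∑ l, c l = 1 ∧ ∑ l, c l • p l = z := by
  have h1 : affineSpan ℝ (Set.range (fun j : J => p j)) = ⊤ := by
    rw [ha.affineSpan_eq_top_iff_card_eq_finrank_add_one, Fintype.card_coe, hc,
      Module.finrank_fintype_fun_eq_card]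
  have h2 : z ∈ affineSpan ℝ (Set.range (fun j : J => p j)) := by
    rw [h1]
    exact AffineSubspace.mem_top ℝ _ _
  obtain ⟨w, hw1, hw2⟩ := eq_affineCombination_of_mem_affineSpan_of_fintype h2
  rw [Finset.affineCombination_eq_linear_combination _ _ _ hw1] at hw2
  set c : T → ℝ := fun l => if hl : l ∈ J then w ⟨l, hl⟩ else 0 with hcdef
  have hc0 : ∀ l ∉ J, c l = 0 := fun l hl => by simp only [hcdef, dif_neg hl]
  have hc1 : ∀ j : J, c j = w j := fun j => by simp only [hcdef, dif_pos j.2]
  refine ⟨c, hc0, ?_, ?_⟩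
  · rw [sum_sub' J c hc0]
    simp only [hc1]
    exact hw1
  · rw [sum_sub J c hc0 p, hw2]
    simp only [hc1]

omit [DecidableEq I] in
/-- the cost of a representation on a cell is minimal -/
theorem cost_le (p : T → (I → ℝ)) (u : T → ℝ) (J : Finset T) (hc : J.card = Fintype.card I + 1)
    (ha : AffineIndependent ℝ (fun j : J => p j)) (hlow : LowR p u J) {z : I → ℝ}
    {lam mu : T → ℝ} (hl : Rp p J z lam) (hm : Rp p Finset.univ z mu) :
    ∑ l, lam l * u l ≤ ∑ l, mu l * u l ∧
      (∑ l, lam l * u l = ∑ l, mu l * u l → ∀ j ∉ J, mu j = 0) := by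
  choose b hb0 hb1 hb2 using fun j => bary p J hc ha (p j)
  set c : T → T → ℝ := fun j => if j ∈ J then Pi.single j 1 else b j with hcd
  have c0 : ∀ j, ∀ l ∉ J, c j l = 0 := by
    intro j l hlJ
    simp only [hcd]
    split_ifs with h
    · rw [Pi.single_apply, if_neg]
      rintro rfl
      exact hlJ h
    · exact hb0 j l hlJ
  have c1 : ∀ j, ∑ l, c j l = 1 := by
    intro j
    simp only [hcd]
    split_ifs with h
    · rw [Finset.sum_eq_single j]
      · simp
      · intro b _ hb
        simp [hb]
      · intro h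
        exact absurd (Finset.mem_univ j) h
    · exact hb1 j
  have c2 : ∀ j, ∑ l, c j l • p l = p j := by
    intro j
    simp only [hcd]
    split_ifs with h
    · rw [Finset.sum_eq_single j]
      · simp
      · intro b _ hb
        simp [hb]
      · intro h
        exact absurd (Finset.mem_univ j) h
    · exact hb2 j
  have c3 : ∀ j, ∑ l, c j l * u l ≤ u j := by
    intro j
    simp only [hcd]
    split_ifs with h
    · rw [Finset.sum_eq_single j]
      · simp
      · intro b _ hb
        simp [hb]
      · intro h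
        exact absurd (Finset.mem_univ j) h
    · exact (hlow j h (b j) (hb0 j) (hb1 j) (hb2 j)).le
  have c4 : ∀ j ∉ J, ∑ l, c j l * u l < u j := by
    intro j h
    simp only [hcd, if_neg h]
    exact hlow j h (b j) (hb0 j) (hb1 j) (hb2 j)
  -- the transported representation
  have key : ∀ l, lam l = ∑ j, mu j * c j l := by
    have h := (ai_iff p J).1 ha (fun l => lam l - ∑ j, mu j * c j l) ?_ ?_ ?_
    · intro l
      have := h l
      linarith
    · intro l hlJ
      rw [hl.2.1 l hlJ, Finset.sum_eq_zero, sub_zero]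
      intro j _
      rw [c0 j l hlJ, mul_zero]
    · rw [Finset.sum_sub_distrib, hl.2.2.1, Finset.sum_comm]
      have : ∑ j, ∑ l, mu j * c j l = ∑ j, mu j := by
        refine Finset.sum_congr rfl fun j _ => ?_
        rw [← Finset.mul_sum, c1 j, mul_one]
      rw [this, hm.2.2.1, sub_self]
    · simp only [sub_smul, Finset.sum_sub_distrib]
      rw [hl.2.2.2]
      have : ∑ l, (∑ j, mu j * c j l) • p l = z := by
        rw [← hm.2.2.2]
        calc ∑ l, (∑ j, mu j * c j l) • p l = ∑ l, ∑ j, (mu j * c j l) • p l := by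
              refine Finset.sum_congr rfl fun l _ => ?_
              rw [Finset.sum_smul]
          _ = ∑ j, ∑ l, (mu j * c j l) • p l := Finset.sum_comm
          _ = ∑ j, mu j • p j := by
              refine Finset.sum_congr rfl fun j _ => ?_
              rw [← c2 j, Finset.smul_sum]
              refine Finset.sum_congr rfl fun l _ => ?_
              rw [mul_smul]
      rw [this, sub_self]
  have hcost : ∑ l, lam l * u l = ∑ j, mu j * ∑ l, c j l * u l := by
    calc ∑ l, lam l * u l = ∑ l, ∑ j, mu j * (c j l * u l) := by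
          refine Finset.sum_congr rfl fun l _ => ?_
          rw [key l, Finset.sum_mul]
          refine Finset.sum_congr rfl fun j _ => ?_
          ring
      _ = ∑ j, ∑ l, mu j * (c j l * u l) := Finset.sum_comm
      _ = ∑ j, mu j * ∑ l, c j l * u l := by
          refine Finset.sum_congr rfl fun j _ => ?_
          rw [Finset.mul_sum]
  rw [hcost]
  have hterm : ∀ j ∈ Finset.univ, mu j * ∑ l, c j l * u l ≤ mu j * u j := fun j _ =>
    mul_le_mul_of_nonneg_left (c3 j) (hm.1 j)
  refine ⟨Finset.sum_le_sum hterm, fun heq j hj => ?_⟩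
  have h1 := (Finset.sum_eq_sum_iff_of_le hterm).1 heq j (Finset.mem_univ j)
  have h2 := c4 j hj
  have h3 : mu j * (u j - ∑ l, c j l * u l) = 0 := by
    rw [mul_sub, h1, sub_self]
  rcases mul_eq_zero.1 h3 with h | h
  · exact h
  · linarith

/-- a small step -/
theorem step1 {J : Finset T} {lam d : T → ℝ} (h1 : ∀ l ∈ J, 0 < lam l) (h2 : ∀ l ∉ J, 0 ≤ d l)
    (h3 : ∀ l ∉ J, lam l = 0) : ∃ η : ℝ, 0 < η ∧ ∀ l, 0 ≤ lam l + η * d l := by
  rcases J.eq_empty_or_nonempty with rfl | hne
  · refine ⟨1, one_pos, fun l => ?_⟩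
    rw [h3 l (Finset.notMem_empty l)]
    have := h2 l (Finset.notMem_empty l)
    linarith
  · obtain ⟨l0, hl0, hmin⟩ := J.exists_min_image (fun l => lam l / (1 + |d l|)) hne
    have hpos : 0 < lam l0 / (1 + |d l0|) := div_pos (h1 l0 hl0) (by positivity)
    refine ⟨lam l0 / (1 + |d l0|), hpos, fun l => ?_⟩
    by_cases hl : l ∈ J
    · have h4 := hmin l hl
      have h5 : lam l0 / (1 + |d l0|) * (1 + |d l|) ≤ lam l := by
        rwa [← le_div_iff₀ (by positivity)]
      have h6 := neg_abs_le (d l)
      have h7 := mul_le_mul_of_nonneg_left h6 hpos.le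
      nlinarith
    · rw [h3 l hl, zero_add]
      exact mul_nonneg hpos.le (h2 l hl)

/-- a maximal step -/
theorem step2 {J : Finset T} {lam g : T → ℝ} (h1 : ∀ l ∈ J, 0 < lam l) (h2 : ∀ l ∉ J, g l = 0)
    (h3 : ∀ l ∉ J, lam l = 0) (h4 : ∃ l, g l < 0) :
    ∃ t : ℝ, 0 < t ∧ (∀ l, 0 ≤ lam l + t * g l) ∧ ∃ l ∈ J, lam l + t * g l = 0 := by
  obtain ⟨k, hk⟩ := h4
  have hne : (Finset.univ.filter (fun l => g l < 0)).Nonempty := ⟨k, by simp [hk]⟩
  obtain ⟨l0, hl0, hmin⟩ := Finset.exists_min_image _ (fun l => lam l / (-g l)) hne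
  have hg0 : g l0 < 0 := (Finset.mem_filter.1 hl0).2
  have hl0J : l0 ∈ J := by
    by_contra hcon
    rw [h2 l0 hcon] at hg0
    exact lt_irrefl _ hg0
  have hpos : 0 < lam l0 / (-g l0) := div_pos (h1 l0 hl0J) (by linarith)
  refine ⟨lam l0 / (-g l0), hpos, fun l => ?_, l0, hl0J, ?_⟩
  · have hlam : 0 ≤ lam l := by
      by_cases hl : l ∈ J
      · exact (h1 l hl).le
      · rw [h3 l hl]
    rcases lt_or_ge (g l) 0 with h | h
    · have h5 := hmin l (by simp [h])
      have h6 : lam l0 / (-g l0) * (-g l) ≤ lam l := by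
        rwa [← le_div_iff₀ (by linarith)]
      linarith
    · have := mul_nonneg hpos.le h
      linarith
  · have h5 : g l0 ≠ 0 := hg0.ne
    have h6 : lam l0 / -g l0 * g l0 = -lam l0 := by
      field_simp
    rw [h6, add_neg_cancel]

omit [DecidableEq I] in
/-- every point outside of the lower dimensional simplices is in a cell -/
theorem exists_cell (p : T → (I → ℝ)) (u : T → ℝ)
    (hg : ∀ J : Finset T, AffineIndependent ℝ (fun j : J => p j) → ∀ j ∉ J, ∀ c : T → ℝ,
      (∀ l ∉ J, c l = 0) → ∑ l, c l = 1 → ∑ l, c l • p l = p j → ∑ l, c l * u l ≠ u j)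
    (z : I → ℝ) (hz : ∃ lam, Rp p Finset.univ z lam)
    (hgen : ∀ K : Finset T, K.card ≤ Fintype.card I → ¬ ∃ lam, Rp p K z lam) :
    ∃ J : Finset T, (J.card = Fintype.card I + 1 ∧ AffineIndependent ℝ (fun j : J => p j) ∧
      LowR p u J) ∧ ∃ lam, Rp p J z lam := by
  classical
  set RR : Set (T → ℝ) := {lam | Rp p Finset.univ z lam} with hRR
  have hcl : IsCompact RR := by
    have h1 : RR ⊆ Set.Icc 0 1 := by
      rintro lam ⟨h1, -, h3, -⟩
      refine ⟨fun l => h1 l, fun l => ?_⟩
      rw [Pi.one_apply, ← h3]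
      exact Finset.single_le_sum (fun l _ => h1 l) (Finset.mem_univ l)
    refine isCompact_Icc.of_isClosed_subset ?_ h1
    have h2 : RR = {lam | ∀ l, 0 ≤ lam l} ∩ {lam | ∑ l, lam l = 1} ∩
        {lam | ∑ l, lam l • p l = z} := by
      ext lam
      constructor
      · rintro ⟨a, -, b, c⟩
        exact ⟨⟨a, b⟩, c⟩
      · rintro ⟨⟨a, b⟩, c⟩
        exact ⟨a, fun l hl => absurd (Finset.mem_univ l) hl, b, c⟩
    rw [h2]
    refine (IsClosed.inter ?_ ?_).inter ?_
    · have : {lam : T → ℝ | ∀ l, 0 ≤ lam l} = ⋂ l, {lam | 0 ≤ lam l} := by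
        ext lam
        simp
      rw [this]
      exact isClosed_iInter fun l => isClosed_le continuous_const (continuous_apply l)
    · exact isClosed_eq (by fun_prop) continuous_const
    · exact isClosed_eq (by fun_prop) continuous_const
  have hcont : Continuous (fun lam : T → ℝ => ∑ l, lam l * u l) := by fun_prop
  obtain ⟨lam0, hlam0, hmin0⟩ := hcl.exists_isMinOn hz hcont.continuousOn
  -- among the minimisers, one with the smallest support
  set sp : (T → ℝ) → Finset T := fun lam => Finset.univ.filter (fun l => lam l ≠ 0) with hsp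
  set MM : Set (T → ℝ) := {lam | lam ∈ RR ∧ ∑ l, lam l * u l ≤ ∑ l, lam0 l * u l} with hMM
  have hMMne : MM.Nonempty := ⟨lam0, hlam0, le_rfl⟩
  obtain ⟨lam, hlam, hmin⟩ :=
    WellFounded.has_min (measure (fun lam : T → ℝ => (sp lam).card)).wf MM hMMne
  have hmin' : ∀ mu ∈ MM, (sp lam).card ≤ (sp mu).card := fun mu hmu => not_lt.1 (hmin mu hmu)
  have hopt : ∀ mu ∈ RR, ∑ l, lam l * u l ≤ ∑ l, mu l * u l := fun mu hmu =>
    hlam.2.trans (hmin0 hmu)
  obtain ⟨hl1, -, hl3, hl4⟩ := hlam.1
  set J := sp lam with hJ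
  have hJ0 : ∀ l ∉ J, lam l = 0 := by
    intro l hl
    by_contra hcon
    exact hl (by rw [hJ, hsp]; simp [hcon])
  have hJ1 : ∀ l ∈ J, 0 < lam l := by
    intro l hl
    have : lam l ≠ 0 := by
      rw [hJ, hsp] at hl
      exact (Finset.mem_filter.1 hl).2
    exact lt_of_le_of_ne (hl1 l) (Ne.symm this)
  have hrep : Rp p J z lam := ⟨hl1, hJ0, hl3, hl4⟩
  -- affine independence
  have hai : AffineIndependent ℝ (fun j : J => p j) := by
    rw [ai_iff]
    by_contra hcon
    push Not at hcon
    obtain ⟨g, g0, g1, g2, l1, hl1g⟩ := hcon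
    -- a dependence with nonpositive cost
    obtain ⟨g', g0', g1', g2', g3', g4'⟩ : ∃ g' : T → ℝ, (∀ l ∉ J, g' l = 0) ∧ ∑ l, g' l = 0 ∧
        ∑ l, g' l • p l = 0 ∧ ∑ l, g' l * u l ≤ 0 ∧ g' l1 ≠ 0 := by
      rcases le_total (∑ l, g l * u l) 0 with h | h
      · exact ⟨g, g0, g1, g2, h, hl1g⟩
      · refine ⟨fun l => -g l, fun l hl => neg_eq_zero.2 (g0 l hl), ?_, ?_, ?_, ?_⟩
        · rw [Finset.sum_neg_distrib, g1, neg_zero]
        · simp only [neg_smul, Finset.sum_neg_distrib, g2, neg_zero]
        · simp only [neg_mul, Finset.sum_neg_distrib]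
          linarith
        · exact neg_ne_zero.2 hl1g
    have hneg : ∃ l, g' l < 0 := by
      by_contra hcon
      push Not at hcon
      have := (Finset.sum_eq_zero_iff_of_nonneg (fun l _ => hcon l)).1 g1' l1 (Finset.mem_univ _)
      exact g4' this
    obtain ⟨t, ht, ht1, l2, hl2J, hl2⟩ := step2 hJ1 g0' hJ0 hneg
    set mu : T → ℝ := fun l => lam l + t * g' l with hmu
    have hmuR : mu ∈ RR := by
      refine ⟨ht1, fun l hl => absurd (Finset.mem_univ l) hl, ?_, ?_⟩
      · simp only [hmu]
        rw [Finset.sum_add_distrib, ← Finset.mul_sum, g1', hl3, mul_zero, add_zero]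
      · simp only [hmu, add_smul, mul_smul]
        rw [Finset.sum_add_distrib, ← Finset.smul_sum, g2', hl4, smul_zero, add_zero]
    have hmuM : mu ∈ MM := by
      refine ⟨hmuR, ?_⟩
      have h5 : ∑ l, mu l * u l = ∑ l, lam l * u l + t * ∑ l, g' l * u l := by
        rw [Finset.mul_sum, ← Finset.sum_add_distrib]
        refine Finset.sum_congr rfl fun l _ => ?_
        simp only [hmu]
        ring
      rw [h5]
      have := mul_nonpos_of_nonneg_of_nonpos ht.le g3'
      have := hlam.2
      linarith
    have h6 := hmin' mu hmuM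
    have h7 : sp mu ⊂ sp lam := by
      rw [Finset.ssubset_iff_of_subset]
      · refine ⟨l2, hl2J, ?_⟩
        rw [hsp]
        simp only [Finset.mem_filter, not_and, not_not]
        intro _
        exact hl2
      · intro l hl
        by_contra hcon
        have h8 : mu l = 0 := by
          simp only [hmu]
          rw [hJ0 l hcon, g0' l hcon]
          ring
        rw [hsp] at hl
        exact (Finset.mem_filter.1 hl).2 h8
    exact absurd (Finset.card_lt_card h7) (not_lt.2 h6)
  -- the number of elements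
  have hcard : J.card = Fintype.card I + 1 := by
    have h1 : Fintype.card I < J.card := by
      by_contra hcon
      push Not at hcon
      exact hgen J hcon ⟨lam, hrep⟩
    have h2 := hai.card_le_finrank_succ
    rw [Fintype.card_coe] at h2
    have h3 : Module.finrank ℝ (vectorSpan ℝ (Set.range fun j : J => p j)) ≤ Fintype.card I := by
      have := Submodule.finrank_le (vectorSpan ℝ (Set.range fun j : J => p j))
      rwa [Module.finrank_fintype_fun_eq_card] at this
    omega
  refine ⟨J, ⟨hcard, hai, ?_⟩, lam, hrep⟩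
  -- lower
  intro j hj c c0 c1 c2
  rcases lt_or_gt_of_ne (hg J hai j hj c c0 c1 c2) with h | h
  · exact h
  · exfalso
    set d : T → ℝ := fun l => (Pi.single j 1 : T → ℝ) l - c l with hd
    obtain ⟨η, hη, hη1⟩ := step1 (d := d) hJ1 (fun l hl => by
      simp only [hd]
      rw [c0 l hl, sub_zero, Pi.single_apply]
      split_ifs <;> norm_num) hJ0
    have sA : ∑ l, (Pi.single j 1 : T → ℝ) l = 1 := by
      rw [Finset.sum_eq_single j]
      · simp
      · intro b _ hb
        simp [hb]
      · intro h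
        exact absurd (Finset.mem_univ j) h
    have sB : ∑ l, (Pi.single j 1 : T → ℝ) l • p l = p j := by
      rw [Finset.sum_eq_single j]
      · simp
      · intro b _ hb
        simp [hb]
      · intro h
        exact absurd (Finset.mem_univ j) h
    have sC : ∑ l, (Pi.single j 1 : T → ℝ) l * u l = u j := by
      rw [Finset.sum_eq_single j]
      · simp
      · intro b _ hb
        simp [hb]
      · intro h
        exact absurd (Finset.mem_univ j) h
    have hmuR : (fun l => lam l + η * d l) ∈ RR := by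
      refine ⟨hη1, fun l hl => absurd (Finset.mem_univ l) hl, ?_, ?_⟩
      · simp only [hd]
        rw [Finset.sum_add_distrib, ← Finset.mul_sum, Finset.sum_sub_distrib, sA, c1, hl3,
          sub_self, mul_zero, add_zero]
      · simp only [hd, add_smul, mul_smul, sub_smul]
        rw [Finset.sum_add_distrib, ← Finset.smul_sum, Finset.sum_sub_distrib, sB, c2, hl4,
          sub_self, smul_zero, add_zero]
    have h5 := hopt _ hmuR
    have h6 : ∑ l, (lam l + η * d l) * u l = ∑ l, lam l * u l + η * (u j - ∑ l, c l * u l) := by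
      rw [← sC, ← Finset.sum_sub_distrib, Finset.mul_sum, ← Finset.sum_add_distrib]
      refine Finset.sum_congr rfl fun l _ => ?_
      simp only [hd]
      ring
    rw [h6] at h5
    have : η * (u j - ∑ l, c l * u l) < 0 := mul_neg_of_pos_of_neg hη (by linarith)
    linarith

omit [DecidableEq T] [DecidableEq I] in
/-- lower dimensional simplices are null -/
theorem null_small (p : T → (I → ℝ)) (K : Finset T) (hK : K.card ≤ Fintype.card I) :
    volume (convexHull ℝ (p '' (K : Set T))) = 0 := by
  classical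
  have h1 : convexHull ℝ (p '' (K : Set T)) ⊆ affineSpan ℝ (p '' (K : Set T)) :=
    convexHull_subset_affineSpan _
  refine measure_mono_null h1 ?_
  refine Measure.addHaar_affineSubspace _ _ ?_
  intro htop
  rcases K.eq_empty_or_nonempty with rfl | hne
  · simp only [Finset.coe_empty, Set.image_empty, AffineSubspace.span_empty] at htop
    exact bot_ne_top htop
  · have h2 : vectorSpan ℝ (p '' (K : Set T)) = ⊤ := by
      rw [← direction_affineSpan, htop, AffineSubspace.direction_top]
    obtain ⟨m, hm⟩ : ∃ m, K.card = m + 1 :=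
      ⟨K.card - 1, by have := Finset.card_pos.2 hne; omega⟩
    have h3 := finrank_vectorSpan_image_finset_le ℝ p K hm
    rw [Finset.coe_image, h2, finrank_top, Module.finrank_fintype_fun_eq_card] at h3
    omega

end

theorem main : S_TRI := by
  intro T I _ _ _ _ p u hg
  classical
  set cells := (Finset.univ : Finset (Finset T)).filter (fun J : Finset T =>
    J.card = Fintype.card I + 1 ∧ AffineIndependent ℝ (fun j : J => p j) ∧ LowR p u J) with hcells
  set small := (Finset.univ : Finset (Finset T)).filter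
    (fun K : Finset T => K.card ≤ Fintype.card I) with hsmall
  set N0 : Set (I → ℝ) := ⋃ K ∈ small, convexHull ℝ (p '' (K : Set T)) with hN0
  have hN0null : volume N0 = 0 := by
    rw [hN0]
    refine (measure_biUnion_null_iff small.countable_toSet).2 fun K hK => ?_
    exact null_small p K (Finset.mem_filter.1 hK).2
  have hnot : ∀ z ∉ N0, ∀ K : Finset T, K.card ≤ Fintype.card I → ¬ ∃ lam, Rp p K z lam := by
    intro z hz K hK hcon
    apply hz
    rw [hN0]
    exact Set.mem_iUnion₂.2 ⟨K, by simp [hsmall, hK], (mem_hull p K z).2 hcon⟩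
  have hcpt : ∀ J : Finset T, IsCompact (convexHull ℝ (p '' (J : Set T))) := fun J =>
    ((J.finite_toSet.image p)).isCompact_convexHull ℝ
  have hrange : Set.range p = p '' ((Finset.univ : Finset T) : Set T) := by
    rw [Finset.coe_univ, Set.image_univ]
  -- supports are full
  have hfull : ∀ (z : I → ℝ), z ∉ N0 → ∀ J : Finset T, J.card = Fintype.card I + 1 →
      ∀ lam, Rp p J z lam → ∀ l ∈ J, lam l ≠ 0 := by
    intro z hz J hJ lam hlam l hl hcon
    refine hnot z hz (J.erase l) ?_ ⟨lam, hlam.1, ?_, hlam.2.2⟩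
    · rw [Finset.card_erase_of_mem hl, hJ]
      omega
    · intro k hk
      by_cases hkl : k = l
      · rw [hkl]
        exact hcon
      · refine hlam.2.1 k fun hkJ => hk ?_
        exact Finset.mem_erase.2 ⟨hkl, hkJ⟩
  have hdis : (cells : Set (Finset T)).Pairwise
      (Function.onFun (AEDisjoint volume) (fun J : Finset T => convexHull ℝ (p '' (J : Set T)))) := by
    intro J hJ J' hJ' hne
    have h1 : convexHull ℝ (p '' (J : Set T)) ∩ convexHull ℝ (p '' (J' : Set T)) ⊆ N0 := by
      rintro z ⟨hz1, hz2⟩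
      by_contra hz
      obtain ⟨lam, hlam⟩ := (mem_hull p J z).1 hz1
      obtain ⟨mu, hmu⟩ := (mem_hull p J' z).1 hz2
      obtain ⟨-, a1, a2, a3⟩ := Finset.mem_filter.1 (Finset.mem_coe.1 hJ)
      obtain ⟨-, b1, b2, b3⟩ := Finset.mem_filter.1 (Finset.mem_coe.1 hJ')
      have toU : ∀ {K : Finset T} {nu : T → ℝ}, Rp p K z nu → Rp p Finset.univ z nu :=
        fun h => ⟨h.1, fun l hl => absurd (Finset.mem_univ l) hl, h.2.2⟩
      obtain ⟨c1, c2⟩ := cost_le p u J a1 a2 a3 hlam (toU hmu)
      obtain ⟨d1, d2⟩ := cost_le p u J' b1 b2 b3 hmu (toU hlam)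
      have he : ∑ l, lam l * u l = ∑ l, mu l * u l := le_antisymm c1 d1
      apply hne
      apply Finset.Subset.antisymm
      · intro l hl
        by_contra hcon
        exact hfull z hz J a1 lam hlam l hl (d2 he.symm l hcon)
      · intro l hl
        by_contra hcon
        exact hfull z hz J' b1 mu hmu l hl (c2 he l hcon)
    exact measure_mono_null h1 hN0null
  have hcov : convexHull ℝ (Set.range p) ⊆ (⋃ J ∈ cells, convexHull ℝ (p '' (J : Set T))) ∪ N0 := by
    intro z hz
    by_cases hz0 : z ∈ N0
    · exact Or.inr hz0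
    · left
      rw [hrange] at hz
      obtain ⟨J, hJ, hJ2⟩ := exists_cell p u hg z ((mem_hull p _ z).1 hz) (hnot z hz0)
      exact Set.mem_iUnion₂.2 ⟨J, by simp only [hcells, Finset.mem_filter]; exact ⟨Finset.mem_univ _, hJ⟩,
        (mem_hull p J z).2 hJ2⟩
  have hsub : (⋃ J ∈ cells, convexHull ℝ (p '' (J : Set T))) ⊆ convexHull ℝ (Set.range p) :=
    Set.iUnion₂_subset fun J _ => convexHull_mono (Set.image_subset_range _ _)
  have hvol : volume (convexHull ℝ (Set.range p)) =
      volume (⋃ J ∈ cells, convexHull ℝ (p '' (J : Set T))) := by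
    refine le_antisymm ?_ (measure_mono hsub)
    refine (measure_mono hcov).trans ((measure_union_le _ _).trans ?_)
    rw [hN0null, add_zero]
  rw [hvol, measure_biUnion_finset₀ hdis
    (fun J _ => (hcpt J).measurableSet.nullMeasurableSet), ENNReal.toReal_sum
    (fun J _ => (hcpt J).measure_lt_top.ne)]

end Pool.Agent.W462.GC
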